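import Pool.Agent.TH565.CpU.Weight
import Pool.Agent.Helper669.KCohen
import Pool.Agent.Helper669.Card
import Pool.Agent.H458R4.Cohen2
import Pool.Agent.H995R3.Boards.Cont

/-!
# The hypothesis can be forced
-/

set_option autoImplicit false

namespace Pool.Agent.TH565.CpU

open Cardinal Pool.Agent.Helper669.Forcing Pool.Agent.H458R4.Cohen

/-- The translation of `Phi K Λ I c` into the forcing language. -/
def PhiHolds (P : Type) [Preorder P] (K Λ I : Type) (c : Λ → I) : Set P :=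
  fand (ContinuumLe P Λ) (fall fun i : I => fnot (ContinuumLe P (K × {l // c l = i})))

theorem continuumLe_congr {P : Type} [Preorder P] {Y Y' : Type} (e : Y' ≃ Y) {p : P}
    (h : p ∈ ContinuumLe P Y) : p ∈ ContinuumLe P Y' := by
  rw [ContinuumLe, mem_fex] at h ⊢
  intro q hq
  obtain ⟨r, hr, E, h1, h2⟩ := h q hq
  refine ⟨r, hr, fun y => E (e y), fun y => h1 (e y), fun x => ?_⟩
  have h3 := h2 x
  rw [mem_fimp] at h3 ⊢
  intro s hs hx
  obtain ⟨t, ht, h4⟩ := h3 s hs hx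
  refine ⟨t, ht, ?_⟩
  rw [mem_fex] at h4 ⊢
  intro u hu
  obtain ⟨v, hv, y, hy⟩ := h4 u hu
  refine ⟨v, hv, e.symm y, ?_⟩
  show v ∈ SameReal x (E (e (e.symm y)))
  rw [Equiv.apply_symm_apply]
  exact hy

/-- An infinite cardinal is the union of `cof` many smaller sets. -/
theorem exists_decomposition {μ : Cardinal.{0}} (hμ : ℵ₀ ≤ μ) :
    ∃ (Λ I : Type) (c : Λ → I), #Λ = μ ∧ #I = μ.ord.cof ∧ ∀ i, #{l // c l = i} < μ := by
  have hcard : #(μ.ord.ToType) = μ := by rw [mk_toType, card_ord]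
  obtain ⟨s, hs, hs'⟩ := Order.exists_cof_eq μ.ord.ToType
  choose f hf hf' using hs
  refine ⟨μ.ord.ToType, s, fun l => ⟨f l, hf l⟩, hcard, ?_, fun i => ?_⟩
  · rw [hs', Ordinal.cof_toType]
  · have h1 : #{l // (⟨f l, hf l⟩ : s) = i} ≤ #(Set.Iic i.1) := by
      have hle : ∀ l : {l // (⟨f l, hf l⟩ : s) = i}, l.1 ≤ i.1 := by
        intro l
        have := congrArg Subtype.val l.2
        rw [← this]
        exact hf' l.1
      refine mk_le_of_injective (f := fun l => (⟨l.1, hle l⟩ : Set.Iic i.1)) ?_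
      intro l l' h
      exact Subtype.ext (Subtype.mk.inj h)
    refine h1.trans_lt ?_
    have h2 := Cardinal.mk_Iic_lt i.1 (by rw [hcard, Ordinal.type_toType]) (by rw [hcard]; exact hμ)
    rwa [hcard] at h2

/-- The cardinal hypothesis implies the combinatorial one. -/
theorem phi_of_cof {κ : Cardinal.{0}} (hκ : κ < 𝔠) :
    ∃ (Λ I : Type) (c : Λ → I), #I = (𝔠 : Cardinal.{0}).ord.cof ∧ Phi κ.out Λ I c := by
  obtain ⟨Λ, I, c, h1, h2, h3⟩ := exists_decomposition aleph0_le_continuum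
  refine ⟨Λ, I, c, h2, contLe_iff.2 h1.ge, fun i hi => ?_⟩
  rw [contLe_iff, mk_prod] at hi
  simp only [Cardinal.lift_id, mk_out] at hi
  exact absurd hi (not_le.2 (mul_lt_of_lt aleph0_le_continuum hκ (h3 i)))

/-- compatible members of uncountable families -/
theorem fn_ccc {Λ : Type} (ι : Type) (f : ι → Fn Λ) (hι : ℵ₀ < #ι) :
    ∃ i j, i ≠ j ∧ ∃ r, r ≤ f i ∧ r ≤ f j := by
  by_contra hcon
  push Not at hcon
  have hinj : Function.Injective f := by
    intro i j h
    by_contra hij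
    exact hcon i j hij (f i) le_rfl (by rw [h])
  have h1 : (Set.range f).Countable := by
    refine ccc _ ?_
    rintro _ ⟨i, rfl⟩ _ ⟨j, rfl⟩ ⟨r, hr1, hr2⟩
    by_contra hij
    exact hcon i j (fun h => hij (by rw [h])) r hr1 hr2
  have h2 : #ι ≤ ℵ₀ := by
    rw [← mk_range_eq f hinj]
    exact Cardinal.le_aleph0_iff_set_countable.2 h1
  exact absurd h2 (not_le.2 hι)

/-- For every cardinal `κ` there is a ccc forcing notion which makes the continuum a cardinal
larger than `κ` of cofinality `ℵ₁`. -/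
theorem exists_forcing (κ : Cardinal.{0}) :
    ∃ (Λ I P : Type) (c : Λ → I) (_ : Preorder P), κ < #Λ ∧ (#Λ).ord.cof = ℵ₁ ∧ #I = ℵ₁ ∧
      Nonempty P ∧
      (∀ A : Set P, (∀ p ∈ A, ∀ q ∈ A, p ≠ q → ¬ ∃ r, r ≤ p ∧ r ≤ q) → A.Countable) ∧
      ∀ p : P, p ∈ CardinalsPreserved.{0, 0} P ∧ p ∈ ContinuumIs P #Λ ∧
        p ∈ PhiHolds P κ.out Λ I c := by
  let μ : Cardinal.{0} := beth (κ.ord + Ordinal.omega 1)
  have hlim1 : Order.IsSuccLimit (Ordinal.omega.{0} 1) := isSuccLimit_omega 1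
  have hne : (Ordinal.omega.{0} 1) ≠ 0 := hlim1.bot_lt.ne'
  have hlim : Order.IsSuccLimit (κ.ord + Ordinal.omega.{0} 1) := Ordinal.isSuccLimit_add κ.ord hlim1
  have hμs : μ.IsStrongLimit := isStrongLimit_beth.2 hlim.isSuccPrelimit
  have hμc : μ.ord.cof = ℵ₁ := by
    have h := Ordinal.cof_map_of_isNormal (isNormal_ord.comp isNormal_beth) hlim
    refine h.trans ?_
    rw [Ordinal.cof_add _ hne]
    exact cof_omega_one
  have hμ0 : ℵ₀ ≤ μ := hμs.aleph0_le
  have hκμ : κ < μ := by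
    refine (le_beth_ord κ).trans_lt (beth_lt_beth.2 ?_)
    exact lt_add_of_pos_right _ hlim1.bot_lt
  have hpow : μ ^ ℵ₀ = μ := Pool.Agent.Helper669.Card.pow_aleph0_eq hμs hμc
  have hμ1 : ℵ₀ < μ := Pool.Agent.Helper669.Card.aleph0_lt_of_cof hμc
  obtain ⟨Λ, I, c, h1, h2, h3⟩ := exists_decomposition hμ0
  refine ⟨Λ, I, Fn μ.out, c, inferInstance, by rw [h1]; exact hκμ, by rw [h1]; exact hμc,
    by rw [h2]; exact hμc, inferInstance, ?_, ?_⟩
  · intro A hA
    refine ccc A fun p hp q hq hpq => ?_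
    by_contra hne
    exact hA p hp q hq hne hpq
  · intro p
    have hcont := Pool.Agent.H995R3.Boards.continuumIs hμ1 hpow p
    refine ⟨Pool.Agent.Helper669.K.cardinalsPreserved_of_ccc fn_ccc p, by rw [h1]; exact hcont,
      ?_, ?_⟩
    · obtain ⟨e⟩ : Nonempty (Λ ≃ μ.out) := Cardinal.eq.1 (by rw [h1, mk_out])
      exact continuumLe_congr e hcont.1
    · intro i q hq hcon
      have hlt : #(κ.out × {l // c l = i}) < μ := by
        rw [mk_prod]
        simp only [Cardinal.lift_id, mk_out]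
        exact mul_lt_of_lt hμ0 hκμ (h3 i)
      obtain ⟨e⟩ : Nonempty ((#(κ.out × {l // c l = i})).out ≃ κ.out × {l // c l = i}) :=
        Cardinal.eq.1 (mk_out _)
      exact hcont.2 _ hlt q hq (continuumLe_congr e hcon)

end Pool.Agent.TH565.CpU
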