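import Mathlib

/-!
# Function spaces `C_p(X)` and the split interval

`Cp X` is the space of the continuous real-valued functions with the topology of pointwise
convergence. `Cut L` is the compact space of all cuts of a set `L` of real numbers.
-/

set_option autoImplicit false

namespace Pool.Agent.TH565.CpU

open Set Topology TopologicalSpace

/-- The continuous functions from `X` to the real line. -/
def Cp (X : Type*) [TopologicalSpace X] := {f : X → ℝ // Continuous f}

/-- The topology of pointwise convergence: the topology of a subspace of the product `ℝ ^ X`. -/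
instance (X : Type*) [TopologicalSpace X] : TopologicalSpace (Cp X) :=
  instTopologicalSpaceSubtype

/-- the function `0` -/
def zero (X : Type*) [TopologicalSpace X] : Cp X := ⟨fun _ => 0, continuous_const⟩

section Cp

variable {X : Type*} [TopologicalSpace X]

theorem Cp.continuous_eval (x : X) : Continuous fun f : Cp X => f.1 x :=
  (continuous_apply x).comp continuous_subtype_val

theorem Cp.exists_of_mem_nhds {f : Cp X} {U : Set (Cp X)} (hU : U ∈ 𝓝 f) :
    ∃ (K : Finset X) (δ : ℝ), 0 < δ ∧ ∀ g : Cp X, (∀ x ∈ K, |g.1 x - f.1 x| < δ) → g ∈ U := by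
  classical
  obtain ⟨V, hV, hVU⟩ := mem_nhds_induced (Subtype.val : Cp X → X → ℝ) f U |>.1 hU
  rw [nhds_pi, Filter.mem_pi] at hV
  obtain ⟨I, hI, t, ht, hIt⟩ := hV
  have h1 : ∀ i, ∃ δ > 0, Metric.ball (f.1 i) δ ⊆ t i := fun i => Metric.mem_nhds_iff.1 (ht i)
  choose δ hδ hδ' using h1
  have h2 : ∃ ε > 0, ∀ i ∈ I, ε ≤ δ i := by
    rcases hI.toFinset.eq_empty_or_nonempty with h | h
    · refine ⟨1, one_pos, fun i hi => ?_⟩
      have : i ∈ hI.toFinset := hI.mem_toFinset.2 hi
      rw [h] at this
      simp at this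
    · obtain ⟨j, _, hj⟩ := hI.toFinset.exists_min_image δ h
      exact ⟨δ j, hδ j, fun i hi => hj i (hI.mem_toFinset.2 hi)⟩
  obtain ⟨ε, hε, hε'⟩ := h2
  refine ⟨hI.toFinset, ε, hε, fun g hg => hVU (hIt fun i hi => hδ' i ?_)⟩
  rw [Metric.mem_ball, Real.dist_eq]
  exact (hg i (hI.mem_toFinset.2 hi)).trans_le (hε' i hi)

theorem Cp.mem_nhds (f : Cp X) (F : Finset X) {ε : ℝ} (hε : 0 < ε) :
    {g : Cp X | ∀ x ∈ F, |g.1 x - f.1 x| < ε} ∈ 𝓝 f := by
  have h : {g : Cp X | ∀ x ∈ F, |g.1 x - f.1 x| < ε} =
      ⋂ x ∈ F, {g : Cp X | |g.1 x - f.1 x| < ε} := by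
    ext g
    simp
  rw [h, Filter.biInter_finset_mem]
  intro x _
  have hc : Continuous fun g : Cp X => |g.1 x - f.1 x| :=
    ((Cp.continuous_eval x).sub continuous_const).abs
  exact (isOpen_lt hc continuous_const).mem_nhds (by simpa using hε)

end Cp

/-! ### The space of cuts -/

/-- The space of the monotone functions from a set `L` of real numbers to `{false, true}`
with the topology of pointwise convergence. A point of it is a cut of the ordered set `L`. -/
def Cut (L : Set ℝ) : Type := {z : L → Bool // Monotone z}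

instance (L : Set ℝ) : TopologicalSpace (Cut L) := instTopologicalSpaceSubtype

variable {L : Set ℝ}

theorem Cut.continuous_coord (t : L) : Continuous fun z : Cut L => z.1 t :=
  (continuous_apply t).comp continuous_subtype_val

instance : T2Space (Cut L) := inferInstanceAs (T2Space {z : L → Bool // Monotone z})

instance : CompactSpace (Cut L) := by
  have h : IsClosed {z : L → Bool | Monotone z} := by
    have h1 : {z : L → Bool | Monotone z} =
        ⋂ (a : L) (b : L) (_ : a ≤ b), {z : L → Bool | z a ≤ z b} := by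
      ext z
      simp [Monotone]
    rw [h1]
    refine isClosed_iInter fun a => isClosed_iInter fun b => isClosed_iInter fun _ => ?_
    have h2 : Continuous fun z : L → Bool => (z a, z b) :=
      (continuous_apply a).prodMk (continuous_apply b)
    exact (isClosed_discrete {p : Bool × Bool | p.1 ≤ p.2}).preimage h2
  exact isCompact_iff_compactSpace.1 h.isCompact

/-- The characteristic function of the clopen interval of all cuts `z` with `z r = false` and
`z t = true`. -/
noncomputable def ff (r t : L) : Cp (Cut L) :=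
  ⟨fun z => if z.1 t = true ∧ z.1 r = false then 1 else 0, by
    have h : Continuous fun z : Cut L => (z.1 t, z.1 r) :=
      (Cut.continuous_coord t).prodMk (Cut.continuous_coord r)
    exact (continuous_of_discreteTopology
      (f := fun p : Bool × Bool => if p.1 = true ∧ p.2 = false then (1 : ℝ) else 0)).comp h⟩

theorem ff_apply (r t : L) (z : Cut L) :
    (ff r t).1 z = if z.1 t = true ∧ z.1 r = false then 1 else 0 := rfl

/-- the cut given by a member of `L` -/
noncomputable def pt (s : L) : Cut L := ⟨fun t => decide (s ≤ t), fun a b hab => by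
  by_cases h : s ≤ a
  · simp [h, h.trans hab]
  · simp [h]⟩

theorem pt_apply (s t : L) : (pt s).1 t = decide (s ≤ t) := rfl

/-- The cut `z` jumps at `t`. -/
def Jump (z : Cut L) (t : L) : Prop := ∀ δ > 0, ∃ u : L, |(u : ℝ) - t| < δ ∧ z.1 u ≠ z.1 t

theorem jump_not_lt {z : Cut L} {t t' : L} (h : Jump z t) (h' : Jump z t') : ¬ t < t' := by
  intro hlt
  have hlt' : (t : ℝ) < t' := hlt
  obtain ⟨u, hu, hzu⟩ := h ((t' - t) / 2) (by linarith)
  obtain ⟨u', hu', hzu'⟩ := h' ((t' - t) / 2) (by linarith)
  rw [abs_lt] at hu hu'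
  have h1 : ∃ v : L, (v : ℝ) < (t + t') / 2 ∧ z.1 v = true := by
    rcases Bool.eq_false_or_eq_true (z.1 t) with h2 | h2
    · exact ⟨t, by linarith, h2⟩
    · refine ⟨u, by linarith, ?_⟩
      rw [h2] at hzu
      simpa using hzu
  obtain ⟨v, hv, hv'⟩ := h1
  have h3 : ∀ w : L, (t + t') / 2 < (w : ℝ) → z.1 w = true := by
    intro w hw
    have h4 : v ≤ w := Subtype.coe_le_coe.1 (hv.trans hw).le
    have h5 := z.2 h4
    rw [hv'] at h5
    exact Bool.eq_true_of_true_le h5
  exact hzu' ((h3 u' (by linarith)).trans (h3 t' (by linarith)).symm)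

theorem jump_eq {z : Cut L} {t t' : L} (h : Jump z t) (h' : Jump z t') : t = t' :=
  le_antisymm (not_lt.1 (jump_not_lt h' h)) (not_lt.1 (jump_not_lt h h'))

end Pool.Agent.TH565.CpU
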