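import Pool.Agent.TH565.CpU.Core

/-!
# Weights and cardinalities
-/

set_option autoImplicit false

namespace Pool.Agent.TH565.CpU

open Set Topology TopologicalSpace Cardinal

universe u

/-- The weight of a space: the least cardinality of a base. -/
noncomputable def weight (X : Type u) [TopologicalSpace X] : Cardinal.{u} :=
  sInf {c | ∃ B : Set (Set X), IsTopologicalBasis B ∧ #B = c}

theorem exists_base (X : Type u) [TopologicalSpace X] :
    ∃ B : Set (Set X), IsTopologicalBasis B ∧ #B = weight X := by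
  have hne : {c : Cardinal.{u} | ∃ B : Set (Set X), IsTopologicalBasis B ∧ #B = c}.Nonempty :=
    ⟨_, {s : Set X | IsOpen s}, isTopologicalBasis_opens, rfl⟩
  exact csInf_mem hne

theorem weight_le {X : Type u} [TopologicalSpace X] {B : Set (Set X)}
    (hB : IsTopologicalBasis B) : weight X ≤ #B :=
  csInf_le' ⟨B, hB, rfl⟩

theorem cut_basis {L : Set ℝ} : IsTopologicalBasis
    (range fun A : Finset (L × Bool) => {z : Cut L | ∀ p ∈ A, z.1 p.1 = p.2}) := by
  classical
  refine isTopologicalBasis_of_isOpen_of_nhds ?_ ?_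
  · rintro _ ⟨A, rfl⟩
    have h : {z : Cut L | ∀ p ∈ A, z.1 p.1 = p.2} = ⋂ p ∈ A, {z : Cut L | z.1 p.1 = p.2} := by
      ext z
      simp
    show IsOpen {z : Cut L | ∀ p ∈ A, z.1 p.1 = p.2}
    rw [h]
    refine isOpen_biInter_finset fun p _ => ?_
    exact (isOpen_discrete {b : Bool | b = p.2}).preimage (Cut.continuous_coord p.1)
  · intro z U hz hU
    obtain ⟨V, hV, hVU⟩ := mem_nhds_induced (Subtype.val : Cut L → L → Bool) z U |>.1
      (hU.mem_nhds hz)
    rw [nhds_pi, Filter.mem_pi] at hV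
    obtain ⟨I, hI, t, ht, hIt⟩ := hV
    refine ⟨_, ⟨hI.toFinset.image fun i => (i, z.1 i), rfl⟩, ?_, ?_⟩
    · rintro p hp
      obtain ⟨i, _, rfl⟩ := Finset.mem_image.1 hp
      rfl
    · intro z' hz'
      refine hVU (hIt fun i hi => ?_)
      have h1 : z'.1 i = z.1 i :=
        hz' (i, z.1 i) (Finset.mem_image_of_mem _ (hI.mem_toFinset.2 hi))
      rw [h1]
      exact mem_of_mem_nhds (ht i)

theorem weight_cut {L : Set ℝ} (hL : L.Infinite) : weight (Cut L) ≤ #L := by
  have : Infinite L := hL.to_subtype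
  refine (weight_le cut_basis).trans (mk_range_le.trans ?_)
  rw [mk_finset_of_infinite, mk_prod]
  simp only [Cardinal.lift_id, mk_bool]
  exact (Cardinal.mul_le_max_of_aleph0_le_left (aleph0_le_mk L)).trans
    (max_le le_rfl ((ofNat_lt_aleph0 (n := 2)).le.trans (aleph0_le_mk L)))

/-! ### Cardinalities of the sets of codes -/

theorem mk_finset_le (ι : Type u) : #(Finset ι) ≤ max #ι ℵ₀ := by
  rcases finite_or_infinite ι with h | h
  · exact mk_le_aleph0.trans (le_max_right _ _)
  · rw [mk_finset_of_infinite]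
    exact le_max_left _ _

theorem mk_seq_le {X : Type} (hX : #X ≤ 𝔠) : #(ℕ → X) ≤ 𝔠 := by
  have h : #(ℕ → X) = #X ^ ℵ₀ := by simp [mk_pi]
  rw [h]
  exact (power_le_power_right hX).trans continuum_power_aleph0.le

theorem mk_bigCode_le {ι : Type} (hι : #ι ≤ 𝔠) : #(BigCode ι) ≤ 𝔠 := by
  have hF : #(Finset ι) ≤ 𝔠 := (mk_finset_le ι).trans (max_le hι aleph0_le_continuum)
  have h1 : #(Code ι) ≤ 𝔠 := by
    have h2 : #(Code ι) ≤ #((ℕ → ℝ) × ((ℕ → Finset ι) × (ℕ → Finset ι))) := by
      refine mk_le_of_injective (f := fun c => (c.q, (c.U, c.V))) ?_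
      rintro ⟨q, U, V⟩ ⟨q', U', V'⟩ h
      simp only [Prod.mk.injEq] at h
      obtain ⟨rfl, rfl, rfl⟩ := h
      rfl
    refine h2.trans ?_
    rw [mk_prod, mk_prod]
    simp only [Cardinal.lift_id]
    refine (mul_le_mul' (mk_seq_le mk_real.le)
      (mul_le_mul' (mk_seq_le hF) (mk_seq_le hF))).trans ?_
    rw [continuum_mul_self, continuum_mul_self]
  rw [BigCode, mk_prod]
  simp only [Cardinal.lift_id]
  refine (mul_le_mul' (mk_seq_le h1) (mk_seq_le mk_real.le)).trans ?_
  rw [continuum_mul_self]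

instance {ι : Type*} : Nonempty (BigCode ι) :=
  ⟨(fun _ => ⟨fun _ => 0, fun _ => ∅, fun _ => ∅⟩, fun _ => 0)⟩

theorem mk_index_le {ι : Type} {κ : Cardinal.{0}} (hκ : ℵ₀ ≤ κ) (hι : #ι ≤ κ) :
    #((ℕ × (Finset ι × Bool)) ⊕ ℕ) ≤ κ := by
  have hF : #(Finset ι) ≤ κ := (mk_finset_le ι).trans (max_le hι hκ)
  rw [mk_sum, mk_prod, mk_prod]
  simp only [Cardinal.lift_id, mk_nat, mk_bool]
  refine (add_le_add (mul_le_mul' hκ (mul_le_mul' hF
    ((ofNat_lt_aleph0 (n := 2)).le.trans hκ))) hκ).trans ?_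
  rw [mul_eq_self hκ, mul_eq_self hκ, add_eq_self hκ]

theorem exists_surjective_of_le {X Y : Type} [Nonempty Y] (h : #Y ≤ #X) :
    ∃ f : X → Y, Function.Surjective f := by
  obtain ⟨g⟩ := (Cardinal.le_def _ _).1 h
  exact ⟨Function.invFun g, Function.invFun_surjective g.injective⟩

/-- In the extension (or in the ground model) there is a map from `Y` onto the set of all
functions from `ℕ` to `ℕ`. -/
def ContLe (Y : Type) : Prop := ∃ E : Y → ℕ → ℕ, ∀ x : ℕ → ℕ, ∃ y, x = E y

theorem contLe_iff {Y : Type} : ContLe Y ↔ 𝔠 ≤ #Y := by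
  constructor
  · rintro ⟨E, hE⟩
    have h := mk_le_of_surjective (f := E) fun x => (hE x).imp fun y hy => hy.symm
    simpa using h
  · intro h
    have h1 : #(ℕ → ℕ) ≤ #Y := by simpa using h
    obtain ⟨f, hf⟩ := exists_surjective_of_le h1
    exact ⟨f, fun x => (hf x).imp fun y hy => hy.symm⟩

/-- The continuum is covered by the family of the sets indexed by `{l | c l = i}`, where `i` runs
through `I`, while none of these sets has a product with `K` which can be mapped onto the
continuum. -/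
def Phi (K Λ I : Type) (c : Λ → I) : Prop :=
  ContLe Λ ∧ ∀ i : I, ¬ ContLe (K × {l // c l = i})

/-- **Main theorem.** -/
theorem exists_no_embedding {K Λ I : Type} {c : Λ → I} (h : Phi K Λ I c) (hK : Infinite K)
    (W : Type) [TopologicalSpace W] [CompactSpace W] (hW : weight W ≤ #K) :
    ∃ (X : Type) (_ : TopologicalSpace X) (_ : CompactSpace X) (_ : T2Space X),
      weight X ≤ max #I ℵ₀ ∧ ¬ ∃ e : Cp X → Cp W, IsEmbedding e := by
  classical
  obtain ⟨hΛ, hi⟩ := h
  obtain ⟨B, hB, hBW⟩ := exists_base W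
  have hBK : #B ≤ #K := hBW.le.trans hW
  have hKinf : ℵ₀ ≤ #K := aleph0_le_mk K
  have hrange : range (Subtype.val : B → Set W) = B := Subtype.range_coe
  have hB' : IsTopologicalBasis (range (Subtype.val : B → Set W)) := by rw [hrange]; exact hB
  -- `#K < 𝔠`
  have hKc : #K ≤ 𝔠 := by
    by_contra hcon
    rw [not_le] at hcon
    obtain ⟨E, hE⟩ := hΛ
    obtain ⟨l, _⟩ := hE fun _ => 0
    apply hi (c l)
    obtain ⟨E', hE'⟩ := contLe_iff.2 hcon.le
    refine ⟨fun p => E' p.1, fun x => ?_⟩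
    obtain ⟨k, hk⟩ := hE' x
    exact ⟨(k, ⟨l, rfl⟩), hk⟩
  have hcode : #(BigCode B) ≤ #Λ :=
    (mk_bigCode_le (hBK.trans hKc)).trans (contLe_iff.1 hΛ)
  obtain ⟨E, hE⟩ := exists_surjective_of_le hcode
  obtain ⟨g, hg⟩ := exists_surjective_of_le (X := K)
    (Y := (ℕ × (Finset B × Bool)) ⊕ ℕ) (mk_index_le hKinf hBK)
  -- the reals outside
  have hs : ∀ i : I, ∃ x : ℝ, ∀ l : Λ, c l = i →
      x ∉ range (decode (Subtype.val : B → Set W) (E l)) := by
    intro i
    by_contra hcon
    push Not at hcon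
    apply hi i
    rw [contLe_iff]
    have hsur : Function.Surjective fun p : K × {l // c l = i} =>
        decode (Subtype.val : B → Set W) (E p.2.1) (g p.1) := by
      intro x
      obtain ⟨l, hl, y, hy⟩ := hcon x
      obtain ⟨k, hk⟩ := hg y
      refine ⟨(k, ⟨l, hl⟩), ?_⟩
      show decode (Subtype.val : B → Set W) (E l) (g k) = x
      rw [hk, hy]
    have := mk_le_of_surjective hsur
    rwa [mk_real] at this
  choose s hs using hs
  let S : Set ℝ := range s ∪ range ((↑) : ℚ → ℝ)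
  have hSinf : S.Infinite :=
    (Set.infinite_range_of_injective Rat.cast_injective).mono subset_union_right
  have hSc : #S ≤ max #I ℵ₀ := by
    refine (mk_union_le _ _).trans ((add_le_add mk_range_le (mk_range_le (α := ℚ))).trans ?_)
    rw [mk_denumerable ℚ]
    refine (Cardinal.add_le_max _ _).trans ?_
    simp
  refine ⟨Cut S, inferInstance, inferInstance, inferInstance, (weight_cut hSinf).trans hSc, ?_⟩
  rintro ⟨T, hT⟩
  obtain ⟨C, hC⟩ := exists_bigCode hB' (fun q => Or.inr ⟨q, rfl⟩) hT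
  obtain ⟨l, rfl⟩ := hE C
  exact hs (c l) l rfl (hC (Or.inl ⟨c l, rfl⟩))

end Pool.Agent.TH565.CpU
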